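import Pool.Agent.Helper12.NK.St

/-!
Project NK, MODULE EXM: the three properties of an excluded minor
-/

set_option autoImplicit false

namespace Pool.Agent.Helper19.NK

open Pool.Agent.Helper12.NK
open Pool.Agent.Helper51.AJ (IsMinor Planar Apex ExMinor Con Tch con_singleton con_pair isMinor_of_hom)

private lemma ptr_val (hP : StPTR) {V β : Type} (H : SimpleGraph V) (K : SimpleGraph β)
    (val : β → V) (hval : Function.Injective val)
    (hmem : ∀ a a', H.Adj a a' → ∃ z, val z = a)
    (hadj : ∀ z z', H.Adj (val z) (val z') → K.Adj z z') (hK : Planar K) : Planar H := by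
  have hs : ∀ z, {x | val x = val z} = ({z} : Set β) := by
    intro z
    ext x
    rw [Set.mem_ofPred_eq, Set.mem_singleton_iff]
    exact ⟨fun h => hval h, fun h => by rw [h]⟩
  refine hP V β H K (fun a => {z | val z = a}) ?_ ?_ ?_ hK
  · intro a a' h
    obtain ⟨z, rfl⟩ := hmem a a' h
    rw [hs z]
    exact con_singleton K z
  · intro a a' b b' hab _ _
    rw [Set.disjoint_left]
    intro x h1 h2
    rw [Set.mem_ofPred_eq] at h1 h2
    exact hab (h1.symm.trans h2)
  · intro a a' h
    obtain ⟨z, rfl⟩ := hmem a a' h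
    obtain ⟨z', rfl⟩ := hmem a' _ h.symm
    exact ⟨z, rfl, z', rfl, hadj z z' h⟩

private lemma del_adj {V : Type} {G : SimpleGraph V} {y f a b : V} :
    (G.deleteEdges {s(y, f)}).Adj a b ↔ G.Adj a b ∧ s(a, b) ≠ s(y, f) := by
  rw [SimpleGraph.deleteEdges_adj, Set.mem_singleton_iff]

private lemma add_le_del {V : Type} {G : SimpleGraph V} {x y f : V} (a b : V)
    (h : (add (rst G {x, y}ᶜ) y ({b | G.Adj y b} \ {x, f})).Adj a b) :
    (G.deleteEdges {s(y, f)}).Adj a b ∧ (x ≠ y → a ≠ x ∧ b ≠ x) := by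
  rcases h with h | h | h
  · obtain ⟨h1, h2, h3⟩ := h
    simp only [Set.mem_compl_iff, Set.mem_insert_iff, Set.mem_singleton_iff, not_or] at h2 h3
    refine ⟨del_adj.2 ⟨h1, ?_⟩, fun _ => ⟨h2.1, h3.1⟩⟩
    intro e
    rw [Sym2.eq_iff] at e
    rcases e with e | e
    · exact h2.2 e.1
    · exact h3.2 e.2
  · obtain ⟨rfl, h2, h3⟩ := h
    simp only [Set.mem_sdiff, Set.mem_ofPred_eq, Set.mem_insert_iff, Set.mem_singleton_iff,
      not_or] at h2
    refine ⟨del_adj.2 ⟨h2.1, ?_⟩, fun hx => ⟨fun h => hx h.symm, h2.2.1⟩⟩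
    intro e
    rw [Sym2.eq_iff] at e
    rcases e with e | e
    · exact h2.2.2 e.2
    · exact h3 e.2
  · obtain ⟨rfl, h2, h3⟩ := h
    simp only [Set.mem_sdiff, Set.mem_ofPred_eq, Set.mem_insert_iff, Set.mem_singleton_iff,
      not_or] at h2
    refine ⟨del_adj.2 ⟨h2.1.symm, ?_⟩, fun hx => ⟨h2.2.1, fun h => hx h.symm⟩⟩
    intro e
    rw [Sym2.eq_iff] at e
    rcases e with e | e
    · exact h3 e.1
    · exact h2.2.2 e.1

private lemma not_iso_del {V : Type} [Finite V] {G : SimpleGraph V} {y f : V} (h : G.Adj y f) :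
    ¬ Nonempty (G.deleteEdges {s(y, f)} ≃g G) := by
  rintro ⟨e⟩
  have h1 : Nat.card (G.deleteEdges {s(y, f)}).edgeSet = Nat.card G.edgeSet :=
    Nat.card_congr e.mapEdgeSet
  rw [Nat.card_coe_set_eq, Nat.card_coe_set_eq] at h1
  have h2 : (G.deleteEdges {s(y, f)}).edgeSet.ncard < G.edgeSet.ncard := by
    refine Set.ncard_lt_ncard ?_ (Set.toFinite _)
    rw [SimpleGraph.edgeSet_deleteEdges]
    refine ⟨Set.sdiff_subset, fun h3 => ?_⟩
    have h4 : s(y, f) ∈ G.edgeSet := h
    exact (h3 h4).2 rfl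
  exact absurd h1 h2.ne

private lemma isMinor_cnt {V : Type} {G : SimpleGraph V} {u v : V} (h : G.Adj u v) :
    IsMinor ((cnt G u v).induce ({v}ᶜ : Set V)) G := by
  classical
  have hin : ∀ w : ({v}ᶜ : Set V), w.1 ∈ (if w.1 = u then ({u, v} : Set V) else {w.1}) := by
    intro w
    by_cases hw : w.1 = u
    · rw [if_pos hw, hw]
      exact Set.mem_insert _ _
    · rw [if_neg hw]
      exact Set.mem_singleton _
  have hv : ∀ w : ({v}ᶜ : Set V), w.1 = u → v ∈ (if w.1 = u then ({u, v} : Set V) else {w.1}) := by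
    intro w hw
    rw [if_pos hw]
    exact Set.mem_insert_of_mem _ (Set.mem_singleton _)
  refine ⟨fun w => if w.1 = u then ({u, v} : Set V) else {w.1}, ?_, ?_, ?_⟩
  · intro w
    change Con G (if w.1 = u then ({u, v} : Set V) else {w.1})
    by_cases hw : w.1 = u
    · rw [if_pos hw]
      exact con_pair h
    · rw [if_neg hw]
      exact con_singleton G w.1
  · intro w w' hww
    have hne : w.1 ≠ w'.1 := fun e => hww (Subtype.ext e)
    have hwv : w.1 ≠ v := w.2
    have hwv' : w'.1 ≠ v := w'.2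
    rw [Set.disjoint_left]
    intro x h1 h2
    by_cases hw : w.1 = u
    · have hw' : w'.1 ≠ u := fun e => hne (hw.trans e.symm)
      simp only [if_pos hw, if_neg hw', Set.mem_insert_iff, Set.mem_singleton_iff] at h1 h2
      rcases h1 with h1 | h1
      · exact hw' (h2.symm.trans h1)
      · exact hwv' (h2.symm.trans h1)
    · by_cases hw' : w'.1 = u
      · simp only [if_neg hw, if_pos hw', Set.mem_insert_iff, Set.mem_singleton_iff] at h1 h2
        rcases h2 with h2 | h2
        · exact hw (h1.symm.trans h2)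
        · exact hwv (h1.symm.trans h2)
      · simp only [if_neg hw, if_neg hw', Set.mem_singleton_iff] at h1 h2
        exact hne (h1.symm.trans h2)
  · intro w w' hadj
    have h1 : (cnt G u v).Adj w.1 w'.1 := hadj
    obtain ⟨_, _, _, h2⟩ := h1
    rcases h2 with h2 | h2 | h2
    · exact ⟨w.1, hin w, w'.1, hin w', h2⟩
    · exact ⟨v, hv w h2.1, w'.1, hin w', h2.2⟩
    · exact ⟨w.1, hin w, v, hv w' h2.1, h2.2.symm⟩

private lemma not_iso_cnt {V : Type} [Finite V] {G H : SimpleGraph V} {v : V} :
    ¬ Nonempty (H.induce ({v}ᶜ : Set V) ≃g G) := by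
  rintro ⟨e⟩
  have hinj : Function.Injective (fun x : V => (e.symm x).1) := by
    intro x x' h
    exact e.symm.injective (Subtype.ext h)
  obtain ⟨x, hx⟩ := Finite.injective_iff_surjective.1 hinj v
  exact (e.symm x).2 hx

theorem hEXM : StPTR → StKCA → StEXM := by
  intro hP hK V _ G hcard hEx
  obtain ⟨hnA, hmin⟩ := hEx
  have kca := fun (G' : SimpleGraph V) (U : Set V) => hK V G' U
  have hle : ∀ H H' : SimpleGraph V, H ≤ H' → Planar H' → Planar H := (kca G Set.univ).2.2.2.2.2.1
  have hind : ∀ (G' : SimpleGraph V) (U : Set V), Planar (G'.induce U) ↔ Planar (rst G' U) :=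
    fun G' U => (kca G' U).2.2.2.2.2.2.1
  have hHN : HN G := by
    intro x hx
    exact hnA (Or.inr ⟨x, (hind G _).2 hx⟩)
  refine ⟨hHN, ?_, ?_⟩
  · intro y f hyf
    have hmi : IsMinor (G.deleteEdges {s(y, f)}) G :=
      isMinor_of_hom id Function.injective_id (fun a b h => (del_adj.1 h).1)
    rcases hmin V (G.deleteEdges {s(y, f)}) hmi (not_iso_del hyf) with hpl | ⟨x, hpl⟩
    · -- planar
      obtain ⟨x, hx⟩ : ∃ x, x ∉ ({y, f} : Set V) := by
        by_contra hno
        push Not at hno
        have h1 : (Set.univ : Set V) ⊆ {y, f} := fun x _ => hno x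
        have h2 := Set.ncard_le_ncard h1 (Set.toFinite _)
        rw [Set.ncard_univ] at h2
        have h3 : ({y, f} : Set V).ncard ≤ 2 := by
          have h4 := Set.ncard_insert_le y ({f} : Set V)
          rw [Set.ncard_singleton] at h4
          exact h4
        omega
      rw [Set.mem_insert_iff, Set.mem_singleton_iff, not_or] at hx
      refine ⟨x, hx.1, hx.2, ?_⟩
      exact hle _ _ (fun a b h => (add_le_del a b h).1) hpl
    · by_cases hxy : x = y ∨ x = f
      · exfalso
        apply hHN x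
        refine hle _ _ ?_ ((hind _ _).1 hpl)
        intro a b h
        obtain ⟨h1, h2, h3⟩ := h
        rw [Set.mem_compl_iff, Set.mem_singleton_iff] at h2 h3
        refine ⟨del_adj.2 ⟨h1, ?_⟩, h2, h3⟩
        intro e
        rw [Sym2.eq_iff] at e
        rcases hxy with rfl | rfl
        · rcases e with e | e
          · exact h2 e.1
          · exact h3 e.2
        · rcases e with e | e
          · exact h3 e.2
          · exact h2 e.1
      · rw [not_or] at hxy
        refine ⟨x, hxy.1, hxy.2, ?_⟩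
        refine hle _ _ ?_ ((hind _ _).1 hpl)
        intro a b h
        obtain ⟨h1, h2⟩ := add_le_del a b h
        exact ⟨h1, (h2 hxy.1).1, (h2 hxy.1).2⟩
  · intro u v huv
    rcases hmin _ ((cnt G u v).induce ({v}ᶜ : Set V)) (isMinor_cnt huv) not_iso_cnt with
      hpl | ⟨y, hpl⟩
    · left
      refine hle _ _ ?_ ((hind _ _).1 hpl)
      intro a b h
      obtain ⟨h1, h2, h3⟩ := h
      simp only [Set.mem_compl_iff, Set.mem_insert_iff, Set.mem_singleton_iff, not_or] at h2 h3
      exact ⟨⟨G.ne_of_adj h1, h2.2, h3.2, Or.inl h1⟩, h2.2, h3.2⟩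
    · have hyv : y.1 ≠ v := y.2
      by_cases hyu : y.1 = u
      · left
        refine ptr_val hP _ _ (fun z : ({y}ᶜ : Set ({v}ᶜ : Set V)) => z.1.1)
          (fun z z' h => Subtype.ext (Subtype.ext h)) ?_ ?_ hpl
        · intro a a' h
          obtain ⟨h1, h2, h3⟩ := h
          simp only [Set.mem_compl_iff, Set.mem_insert_iff, Set.mem_singleton_iff, not_or] at h2 h3
          refine ⟨⟨⟨a, h2.2⟩, ?_⟩, rfl⟩
          intro e
          have e' : (⟨a, h2.2⟩ : ({v}ᶜ : Set V)) = y := e
          exact h2.1 ((congrArg Subtype.val e').trans hyu)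
        · intro z z' h
          obtain ⟨h1, h2, h3⟩ := h
          change (cnt G u v).Adj z.1.1 z'.1.1
          exact ⟨G.ne_of_adj h1, z.1.2, z'.1.2, Or.inl h1⟩
      · right
        refine ⟨y.1, hyu, hyv, ?_⟩
        have huy : u ≠ y.1 := fun e => hyu e.symm
        have huv' : u ≠ v := G.ne_of_adj huv
        have hmk : ∀ a : V, a ≠ v → a ≠ y.1 → ∃ z : ({y}ᶜ : Set ({v}ᶜ : Set V)), z.1.1 = a := by
          intro a h1 h2
          refine ⟨⟨⟨a, h1⟩, ?_⟩, rfl⟩
          intro e
          have e' : (⟨a, h1⟩ : ({v}ᶜ : Set V)) = y := e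
          exact h2 (congrArg Subtype.val e')
        refine ptr_val hP _ _ (fun z : ({y}ᶜ : Set ({v}ᶜ : Set V)) => z.1.1)
          (fun z z' h => Subtype.ext (Subtype.ext h)) ?_ ?_ hpl
        · intro a a' h
          rcases h with h | h | h
          · obtain ⟨h1, h2, h3⟩ := h
            simp only [Set.mem_compl_iff, Set.mem_insert_iff, Set.mem_singleton_iff,
              not_or] at h2 h3
            exact hmk a h2.2.1 h2.2.2
          · obtain ⟨rfl, h2, h3⟩ := h
            exact hmk a huv' huy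
          · obtain ⟨rfl, h2, h3⟩ := h
            simp only [Set.mem_ofPred_eq] at h2
            exact hmk a h2.2.2.1 h2.2.2.2
        · intro z z' h
          change (cnt G u v).Adj z.1.1 z'.1.1
          have hz : z.1.1 ≠ v := z.1.2
          have hz' : z'.1.1 ≠ v := z'.1.2
          rcases h with h | h | h
          · obtain ⟨h1, h2, h3⟩ := h
            exact ⟨G.ne_of_adj h1, hz, hz', Or.inl h1⟩
          · obtain ⟨h1, h2, h3⟩ := h
            simp only [Set.mem_ofPred_eq] at h2
            refine ⟨fun e => h3 (e.symm.trans h1), hz, hz', ?_⟩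
            rcases h2.1 with h4 | h4
            · left
              rw [h1]
              exact h4
            · exact Or.inr (Or.inl ⟨h1, h4⟩)
          · obtain ⟨h1, h2, h3⟩ := h
            simp only [Set.mem_ofPred_eq] at h2
            refine ⟨fun e => h3 (e.trans h1), hz, hz', ?_⟩
            rcases h2.1 with h4 | h4
            · left
              rw [h1]
              exact h4.symm
            · exact Or.inr (Or.inr ⟨h1, h4⟩)

end Pool.Agent.Helper19.NK
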